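import Pool.Agent.V7H35.LogCount
import Pool.Agent.N671.DA.Tup

/-!
# Measures of algebraic independence for the logarithms of the coordinates of the best approximation vectors of systems of
linear forms

For all `k ≥ 1` and `d` there is a constant `C = C (k, d)` such that the following holds. Let `α` be a real matrix with `k` rows
and `m` columns, `β` in `ℝ^m` and `τ > 0`. We consider the integer vectors `q = (q_1, …, q_k)` with
`‖(q α)_j - β_j‖ ≤ c |q| ^ (-τ)` for `j = 1, …, m`, `‖x‖` the distance to the nearest integer and `|q|` the maximum norm; for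
`β = 0`, `c = 1` and `τ = k / m` they include all best approximation vectors of the system of the linear forms `q α`, by the
theorem of Minkowski (for `k = m = 1` the denominators of the convergents of the continued fraction of `α`). For all `α` outside
a set of Hausdorff dimension at most `(k - 1) m + (m + k - 1 / C) / (1 + τ)`, less than `k m` for `τ ≥ k / m`, and so, for
`τ ≥ k / m`, for almost all `α` and all `d` simultaneously, for all large `q` of this kind: all `|q_i| ≥ 2`, and the
conjectural lower bound `|P (log |q_1|, …, log |q_k|)| ≥ 1 / (|q| H ^ C)` holds for all heights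
`2 ≤ H ≤ exp (exp (|q| ^ (1 / C)))`, all branches of the logarithms with imaginary parts at most `H` and all nonzero integer
polynomials `P` of degree at most `d` and height at most `H`.

The best approximation vectors are a very sparse sequence, about `log T` vectors of norm at most `T`, and so this does not
follow from the size of the exceptional set, which is smaller than `T ^ k` by a factor `T ^ (1 / C)` only. (The file
`DirectionsNearAPoint` of this problem treats the tuples `(q, p_1, …, p_m)` of the numerators and the denominator of a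
simultaneous approximation; here only the coefficients `q` of the linear forms occur, for `m = 1 = k` the denominator alone,
and the number `m` of the forms is arbitrary.)

Proof. The exceptional vectors with coordinates up to `T` are at most `K T ^ (k - 1 / C)` (the file `DirectionsNearAPoint` of this
problem). The matrices `α` with `‖(q α)_j - β_j‖ ≤ c |q| ^ (-τ)` form neighbourhoods of parallel affine subspaces, covered by
cubes of side `|q| ^ (-1 - τ)` (`Pool.Agent.N671.DA`).
-/

set_option autoImplicit false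

namespace Pool.Agent.Results.MP_3cf473_nt.BestApproximationsH35

open MeasureTheory
open Pool.Agent.N671.DA (Near approx_tuples)
open DirectionsNearAPoint (HasMeasure)

/-- the dimension is smaller than `k m` if `k ≤ m τ` -/
lemma dim_lt {k m : ℕ} (hk : 1 ≤ k) (hm : 1 ≤ m) {τ ε : ℝ} (hτ : 0 < τ) (hkτ : (k : ℝ) ≤ m * τ) (hε : 0 < ε) :
    ((k : ℝ) - 1) * m + (m + ((k : ℝ) - ε)) / (1 + τ) < ((k * m : ℕ) : ℝ) := by
  have h1 : (m + ((k : ℝ) - ε)) / (1 + τ) < m := by
    rw [div_lt_iff₀ (by linarith)]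
    nlinarith
  push_cast
  nlinarith

/-- **Measures of algebraic independence for the logarithms of the coordinates of the best approximation vectors.** For each
`k ≥ 1` there are constants `C d ≥ 2` with the following property. Let `β ∈ ℝ^m` and `τ > 0`. (1) For each `d`, for all real
matrices `α` with `k` rows and `m` columns outside a set of Hausdorff dimension at most
`(k - 1) m + (m + k - 1 / C d) / (1 + τ)` and for all `c`, for all large integer vectors `q` with
`‖(q α)_j - β_j‖ ≤ c |q| ^ (-τ)` for all `j`: all `|q_i| ≥ 2` and the logarithms of the integers `|q_i|` have the conjectured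
measure of algebraic independence (`HasMeasure`). (2) If `m ≥ 1` and `m τ ≥ k`, this is true for almost all `α`, for all
`d` simultaneously. -/
theorem result (k : ℕ) (hk : 1 ≤ k) : ∃ C : ℕ → ℕ, (∀ d, 2 ≤ C d) ∧
    ∀ (m : ℕ) (β : Fin m → ℝ) (τ : ℝ), 0 < τ →
      (∀ d : ℕ, ∃ E : Set (Fin k × Fin m → ℝ),
        dimH E ≤ ENNReal.ofReal (((k : ℝ) - 1) * m + (m + ((k : ℝ) - 1 / C d)) / (1 + τ)) ∧
        ∀ α, α ∉ E → ∀ c : ℝ, ∃ Q : ℝ, ∀ q : Fin k → ℤ, Q ≤ ‖q‖ → Near α β q (c * ‖q‖ ^ (-τ)) →
          (∀ i, 2 ≤ (q i).natAbs) ∧ HasMeasure d (C d) (fun i => (q i).natAbs)) ∧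
      (1 ≤ m → (k : ℝ) ≤ m * τ → ∀ᵐ α : Fin k × Fin m → ℝ, ∀ (d : ℕ) (c : ℝ), ∃ Q : ℝ, ∀ q : Fin k → ℤ, Q ≤ ‖q‖ →
        Near α β q (c * ‖q‖ ^ (-τ)) →
          (∀ i, 2 ≤ (q i).natAbs) ∧ HasMeasure d (C d) (fun i => (q i).natAbs)) := by
  choose C hC K hK hcount using fun d => Pool.Agent.V7H35.LogCount.box_count k d hk
  refine ⟨C, hC, fun m β τ hτ => ?_⟩
  have hCpos : ∀ d, (0 : ℝ) < 1 / (C d : ℝ) := fun d => by
    have : (0 : ℝ) < (C d : ℝ) := by exact_mod_cast (by have := hC d; omega : 0 < C d)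
    positivity
  have hC1 : ∀ d, 1 / (C d : ℝ) ≤ 1 := fun d => by
    have : (1 : ℝ) ≤ (C d : ℝ) := by exact_mod_cast (by have := hC d; omega : 1 ≤ C d)
    rw [div_le_one (by linarith)]
    exact this
  have hmain : ∀ d : ℕ, ∃ E : Set (Fin k × Fin m → ℝ),
      dimH E ≤ ENNReal.ofReal (((k : ℝ) - 1) * m + (m + ((k : ℝ) - 1 / C d)) / (1 + τ)) ∧
      ∀ α, α ∉ E → ∀ c : ℝ, ∃ Q : ℝ, ∀ q : Fin k → ℤ, Q ≤ ‖q‖ → Near α β q (c * ‖q‖ ^ (-τ)) →
        (∀ i, 2 ≤ (q i).natAbs) ∧ HasMeasure d (C d) (fun i => (q i).natAbs) := by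
    intro d
    obtain ⟨W, hW⟩ : ∃ W : Set (Fin k → ℕ), W = {w | ¬ HasMeasure d (C d) w} := ⟨_, rfl⟩
    have hWc : ∀ T : ℕ, 1 ≤ T → (({w : Fin k → ℕ | (∀ i, 2 ≤ w i ∧ w i ≤ T) ∧ w ∈ W}.ncard : ℕ) : ℝ) ≤
        K d * (T : ℝ) ^ ((k : ℝ) - 1 / C d) := by
      intro T hT
      obtain ⟨h1, h2⟩ := hcount d T hT
      refine le_trans ?_ h2
      have hsub : {w : Fin k → ℕ | (∀ i, 2 ≤ w i ∧ w i ≤ T) ∧ w ∈ W} ⊆
          {n : Fin k → ℕ | (∀ i, 1 ≤ n i ∧ n i ≤ T) ∧ ¬ HasMeasure d (C d) n} := by
        rintro w ⟨a1, a2⟩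
        rw [hW] at a2
        exact ⟨fun i => ⟨by have := (a1 i).1; omega, (a1 i).2⟩, a2⟩
      exact_mod_cast Set.ncard_le_ncard hsub h1
    obtain ⟨E, hE, hE2⟩ := approx_tuples hk W (c₀ := 1 / C d) (hC1 d) hWc β hτ
    refine ⟨E, hE, fun α hα c => ?_⟩
    obtain ⟨Q, hQ⟩ := hE2 α hα c
    refine ⟨Q, fun q hq hnear => ?_⟩
    obtain ⟨h1, h2⟩ := hQ q hq hnear
    refine ⟨h1, ?_⟩
    rw [hW, Set.mem_ofPred_eq, not_not] at h2
    exact h2
  refine ⟨hmain, fun hm hkτ => ?_⟩
  choose E hE hE2 using hmain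
  rw [ae_all_iff]
  intro d
  have hzero : volume (E d) = 0 := by
    refine measure_zero_of_dimH_lt (d := ((k * m : ℕ) : NNReal)) ?_ ?_
    · have h := hausdorffMeasure_pi_real (ι := Fin k × Fin m)
      rw [Fintype.card_prod, Fintype.card_fin, Fintype.card_fin] at h
      have h' : (((k * m : ℕ) : NNReal) : ℝ) = ((k * m : ℕ) : ℝ) := by push_cast; rfl
      rw [h', h]
    · refine lt_of_le_of_lt (hE d) ?_
      have h1 := dim_lt hk hm hτ hkτ (hCpos d)
      have h2 : (((k * m : ℕ) : NNReal) : ENNReal) = ENNReal.ofReal ((k * m : ℕ) : ℝ) := by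
        rw [ENNReal.ofReal_natCast]
        rfl
      rw [h2]
      refine (ENNReal.ofReal_lt_ofReal_iff ?_).2 h1
      have : 0 < k * m := Nat.mul_pos hk hm
      exact_mod_cast this
  have hae : ∀ᵐ α : Fin k × Fin m → ℝ, α ∉ E d := by
    rw [ae_iff]
    simpa using hzero
  filter_upwards [hae] with α hα
  exact hE2 d α hα

end Pool.Agent.Results.MP_3cf473_nt.BestApproximationsH35
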