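import Pool.Agent.V7H35.LogCount
import Pool.Agent.N790.CM.F

/-!
# Measures of algebraic independence for the logarithms of ALL multiples of Carmichael's function of almost all integers

For all `k ≥ 1` and `d` there is a constant `C = C (k, d)` such that, for `B ≥ 1` with `B (k - 1 / C) < k` (so for some `B > 1`),
for almost all `k`-tuples `(m_1, …, m_k)` the conjectural lower bound `|P (l)| ≥ 1 / (|n| H ^ C)`, for all heights
`2 ≤ H ≤ exp (exp (|n| ^ (1 / C)))`, all logarithms `l i` of the `n i` with imaginary parts at most `H` and all nonzero integer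
polynomials `P` of degree at most `d` and height at most `H`, holds for ALL tuples `n` of positive integers close to ARBITRARY
multiples `w_i ≤ N^B` of Carmichael's function `λ(m_i)`. More generally `w_i` is any common multiple of the values `f_i(p)`,
`p` running through the large primes which divide `m_i` exactly once, where `f_i` takes each positive value at boundedly many
primes.

A single tuple has a power of `N` multiples of this kind, and a single number `w ≤ N^B` can be a multiple of `λ(m)` for more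
than `N^(1 - ε)` numbers `m ≤ N` (popular values). So this does not follow from the number of exceptional tuples. The proof
uses that outside a set of `N / (log N)^U` numbers `m ≤ N` every `w ≤ N^B` is a common multiple for at most `N^δ` of the `m`
(`N790/CM`).
-/

set_option autoImplicit false

namespace Pool.Agent.Results.MP_3cf473_nt.CarmichaelMultiplesH35

open Finset
open DirectionsNearAPoint (HasMeasure)
open Pool.Agent.V7H35.LogCount (Exc)
open Pool.Agent.N790.CM (FewTimes Carries fewTimes_pred carries_carmichael keep_near)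

/-- For each `k ≥ 1` there are constants `C d ≥ 2` with the following property. (1) Let `B ≥ 1` and `B (k - 1 / C d) < k`.
There is `η > 0` such that for all functions `F_1, …, F_k` which take each positive value at most `T` times at the primes, all
`U` and all large `N`, for all but `N^k / (log N)^U` of the `m ∈ {1, …, N}^k`: for ALL `w_1, …, w_k` with
`1 ≤ w_i ≤ N^B` and `F_i(p) ∣ w_i` for all primes `p > exp (√(log N))` which divide `m_i` exactly once, and for ALL tuples `n` of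
positive integers of the form `n_i = u_i w_i + v_i` with integers `u_i ≠ 0`, `v_i` and `|u_i|, |v_i| ≤ w_l^η` for some
`l`, the logarithms of the `n_i` have the conjectured measure of algebraic independence (`HasMeasure`).
(2) `F(p) = p - 1` is such a function, with `T = 1`, and all multiples of Carmichael's function `λ(m)` are divisible by the
`p - 1`, `p ∣ m`. -/
theorem result (k : ℕ) (hk : 1 ≤ k) :
    (∃ C : ℕ → ℕ, (∀ d, 2 ≤ C d) ∧ ∀ (d : ℕ) (B : ℝ), 1 ≤ B → B * (k - 1 / C d) < k →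
      ∃ η : ℝ, 0 < η ∧ ∀ (T : ℕ) (F : Fin k → ℕ → ℕ), (∀ i, FewTimes (F i) T) → ∀ U : ℕ, ∃ N₀ : ℕ, ∀ N : ℕ,
      N₀ ≤ N → ({m : Fin k → ℕ | (∀ i, 1 ≤ m i ∧ m i ≤ N) ∧ ¬ ∀ w : Fin k → ℕ,
        (∀ i, 1 ≤ w i ∧ (w i : ℝ) ≤ (N : ℝ) ^ B ∧ Carries (F i) (Real.exp √(Real.log N)) (m i) (w i)) →
        ∀ (u v : Fin k → ℤ) (n : Fin k → ℕ),
        (∃ l, ∀ i, u i ≠ 0 ∧ |(u i : ℝ)| ≤ (w l : ℝ) ^ η ∧ |(v i : ℝ)| ≤ (w l : ℝ) ^ η) →
        (∀ i, (n i : ℤ) = u i * (w i : ℤ) + v i ∧ 1 ≤ n i) → HasMeasure d (C d) n}.ncard : ℝ) ≤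
        (N : ℝ) ^ k / Real.log N ^ U) ∧
    FewTimes (fun p => p - 1) 1 ∧
    ∀ (y : ℝ) (m w : ℕ), ArithmeticFunction.carmichael m ∣ w → Carries (fun p => p - 1) y m w := by
  refine ⟨?_, fewTimes_pred, carries_carmichael⟩
  choose C hC K hK hcount using fun d => Pool.Agent.V7H35.LogCount.box_count k d hk
  have hk1 : (1 : ℝ) ≤ k := by exact_mod_cast hk
  refine ⟨C, hC, fun d B hB hB2 => ?_⟩
  have hC1 : 1 / (C d : ℝ) ≤ 1 := by
    have : (1 : ℝ) ≤ (C d : ℝ) := by exact_mod_cast (by have := hC d; omega : 1 ≤ C d)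
    rw [div_le_one (by linarith)]
    exact this
  obtain ⟨η, hη, h⟩ := keep_near (k := k) hk (c := 1 / (C d : ℝ)) (B := B) (by linarith) hB hB2
  refine ⟨η, hη, fun T F hF U => ?_⟩
  obtain ⟨N₀, hN₀⟩ := h T F hF (K d) U
  refine ⟨N₀, fun N hN => ?_⟩
  refine le_trans ?_ (hN₀ N hN (Exc k d (C d))
    (fun X hX => Pool.Agent.V7H35.LogCount.exc_count (hcount d) X hX))
  have hfin : {m : Fin k → ℕ | (∀ i, 1 ≤ m i ∧ m i ≤ N) ∧ ¬ ∀ w : Fin k → ℕ,
        (∀ i, 1 ≤ w i ∧ (w i : ℝ) ≤ (N : ℝ) ^ B ∧ Carries (F i) (Real.exp √(Real.log N)) (m i) (w i)) →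
        ∀ a b : Fin k → ℤ, (∃ l, ∀ i, a i ≠ 0 ∧ |(a i : ℝ)| ≤ (w l : ℝ) ^ η ∧ |(b i : ℝ)| ≤ (w l : ℝ) ^ η) →
        (fun i => a i * (w i : ℤ) + b i) ∉ Exc k d (C d)}.Finite := by
    refine (Set.Finite.pi' (fun _ : Fin k => Set.finite_Icc 1 N)).subset ?_
    intro m hm i
    exact hm.1 i
  have hsub : {m : Fin k → ℕ | (∀ i, 1 ≤ m i ∧ m i ≤ N) ∧ ¬ ∀ w : Fin k → ℕ,
        (∀ i, 1 ≤ w i ∧ (w i : ℝ) ≤ (N : ℝ) ^ B ∧ Carries (F i) (Real.exp √(Real.log N)) (m i) (w i)) →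
        ∀ (u v : Fin k → ℤ) (n : Fin k → ℕ),
        (∃ l, ∀ i, u i ≠ 0 ∧ |(u i : ℝ)| ≤ (w l : ℝ) ^ η ∧ |(v i : ℝ)| ≤ (w l : ℝ) ^ η) →
        (∀ i, (n i : ℤ) = u i * (w i : ℤ) + v i ∧ 1 ≤ n i) → HasMeasure d (C d) n} ⊆
      {m : Fin k → ℕ | (∀ i, 1 ≤ m i ∧ m i ≤ N) ∧ ¬ ∀ w : Fin k → ℕ,
        (∀ i, 1 ≤ w i ∧ (w i : ℝ) ≤ (N : ℝ) ^ B ∧ Carries (F i) (Real.exp √(Real.log N)) (m i) (w i)) →
        ∀ a b : Fin k → ℤ, (∃ l, ∀ i, a i ≠ 0 ∧ |(a i : ℝ)| ≤ (w l : ℝ) ^ η ∧ |(b i : ℝ)| ≤ (w l : ℝ) ^ η) →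
        (fun i => a i * (w i : ℤ) + b i) ∉ Exc k d (C d)} := by
    rintro m ⟨h1, h2⟩
    push Not at h2
    obtain ⟨w, hw, u, v, n, ⟨l, hl⟩, h3, h4⟩ := h2
    refine ⟨h1, fun h6 => ?_⟩
    refine h6 w hw u v ⟨l, hl⟩ ?_
    have h7 : (fun i => u i * (w i : ℤ) + v i) = fun i => (n i : ℤ) := by
      funext i
      exact (h3 i).1.symm
    rw [h7]
    refine ⟨fun i => ?_, ?_⟩
    · have := (h3 i).2
      show (0 : ℤ) < (n i : ℤ)
      omega
    · simpa using h4
  exact_mod_cast Set.ncard_le_ncard hsub hfin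

end Pool.Agent.Results.MP_3cf473_nt.CarmichaelMultiplesH35
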