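import Pool.Agent.V7H35.LogCount
import Pool.Agent.R482.ST.Vec

/-!
# Measures of algebraic independence for the logarithms of ALL tuples of integers near the vectors of a sequence

Let `f_j`, `j = 0, 1, 2, …`, be positive functions on `(a₀, ∞)`, `a₀ ≥ 0`, such that `f_j(t) / t` is nondecreasing, and such
that the sequence `f_j(t)` has exponent of convergence at most `τ` for each `t > a₀`: for instance `f_j(t) = v_j t`
(dilatations; `τ` the exponent of convergence of `v_j > 0`), `f_j(t) = t ^ (v_j)` for exponents `v_j ≥ 1` (`τ = 0`), or the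
orbits `f_j(t) = g (g (⋯ g (t)))` of any map `g` with `g(t) > t` and `g(t) / t` nondecreasing (`τ = 0`).

For all `k ≥ 1` and `d` there is a constant `C = C (k, d)` such that, for `θ < 1`, for all vectors `u` in `ℝ ^ k` (maximum
norm), `‖u‖ > a₀`, outside a set of Hausdorff dimension at most `(k - 1 / C + τ) / (1 - θ)`, all constants `c` and all but
finitely many `j`, with `r = f_j(‖u‖)`: the conjectural lower bound `|P (l)| ≥ 1 / (|n| H ^ C)`, for all heights
`2 ≤ H ≤ exp (exp (|n| ^ (1 / C)))`, all logarithms `l i` of the `n i` with imaginary parts at most `H` and all nonzero integer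
polynomials `P` of degree at most `d` and height at most `H`, holds for ALL tuples `n` of positive integers whose
components differ by at most `c r ^ θ` from the components of `(r / ‖u‖) u`.

For `τ = 0` and `θ < 1 / (k C)` the dimension is smaller than `k`, and the statement holds for almost all `u`; the windows then
contain about `r ^ (k θ)` tuples, and all of them satisfy the lower bound.
-/

set_option autoImplicit false

namespace Pool.Agent.Results.MP_3cf473_nt.StarshapedTuplesH35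

open MeasureTheory
open DirectionsNearAPoint (HasMeasure)
open Pool.Agent.V7H35.LogCount (Exc)

/-- the functions `f n` are positive on `(a, ∞)`, `a ≥ 0`, and `f n x / x` is nondecreasing there -/
def Starshaped (a : ℝ) (f : ℕ → ℝ → ℝ) : Prop :=
  0 ≤ a ∧ ∀ n : ℕ, ∀ x y : ℝ, a < x → x ≤ y → 0 < f n x ∧ f n x / x ≤ f n y / y

/-- for each `x > a` the exponent of convergence of the sequence `f n x` is at most `τ` -/
def ExpLe (a : ℝ) (f : ℕ → ℝ → ℝ) (τ : ℝ) : Prop :=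
  ∀ x : ℝ, a < x → ∀ t : ℝ, τ < t → Summable (fun n : ℕ => (f n x) ^ (-t))

/-- the components of `n` differ by at most `ρ` from the components of `(g ‖u‖ / ‖u‖) u` -/
def Near {k : ℕ} (g : ℝ → ℝ) (ρ : ℝ) (u : Fin k → ℝ) (n : Fin k → ℕ) : Prop :=
  ∀ i, |(n i : ℝ) - g ‖u‖ / ‖u‖ * u i| ≤ ρ

/-- **Theorem.** For each `k ≥ 1` there are constants `C d ≥ 2` with the following property. (1) Let `f` be starshaped
functions on `(a, ∞)` of exponent of convergence at most `τ ≥ 0` and `θ < 1`. For each `d` there is a set `E` of Hausdorff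
dimension at most `(k - 1 / C d + τ) / (1 - θ)` such that for each `u` outside `E`, `‖u‖ > a`, each `c` and all but finitely
many `j`: ALL tuples `n` of positive integers near `(f_j(‖u‖) / ‖u‖) u` (`Near`, with `c f_j(‖u‖) ^ θ`) have the conjectured
measure of algebraic independence for their logarithms (`HasMeasure`). (2) If `τ = 0`, then for almost all `u`, `‖u‖ > a`, for
all `d` and all rational `θ < 1 / (k C d)` simultaneously, the same is true.
(3) The functions `v_n x`, `v_n > 0`, are starshaped on `(0, ∞)`, of exponent `τ` if `v` has exponent of convergence at most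
`τ`; the functions `x ^ (v_n)`, `v_n ≥ 1`, are starshaped on `(1, ∞)`, of exponent `0` if the sums of `exp (-t v_n)` converge
for `t > 0`; and the iterates of a map `g` with `g(x) > x` for `x > a` and `g(x) / x` nondecreasing are starshaped on
`(a, ∞)`, of exponent `0`. -/
theorem result :
    (∀ k : ℕ, 1 ≤ k → ∃ C : ℕ → ℕ, (∀ d, 2 ≤ C d) ∧
      (∀ (d : ℕ) (a : ℝ) (f : ℕ → ℝ → ℝ) (τ θ : ℝ), Starshaped a f → 0 ≤ τ → ExpLe a f τ → θ < 1 →
        ∃ E : Set (Fin k → ℝ), dimH E ≤ ENNReal.ofReal (((k : ℝ) - 1 / C d + τ) / (1 - θ)) ∧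
          ∀ u : Fin k → ℝ, a < ‖u‖ → u ∉ E → ∀ c : ℝ, ∃ j₀ : ℕ, ∀ j : ℕ, j₀ ≤ j → ∀ n : Fin k → ℕ, (∀ i, 1 ≤ n i) →
            Near (f j) (c * (f j ‖u‖) ^ θ) u n → HasMeasure d (C d) n) ∧
      (∀ (a : ℝ) (f : ℕ → ℝ → ℝ), Starshaped a f → ExpLe a f 0 →
        ∀ᵐ u : Fin k → ℝ, a < ‖u‖ → ∀ (d : ℕ) (θ : ℚ), 0 ≤ θ → (θ : ℝ) < 1 / (k * C d) → ∀ c : ℝ, ∃ j₀ : ℕ, ∀ j : ℕ, j₀ ≤ j →
          ∀ n : Fin k → ℕ, (∀ i, 1 ≤ n i) → Near (f j) (c * (f j ‖u‖) ^ (θ : ℝ)) u n → HasMeasure d (C d) n)) ∧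
    (∀ (v : ℕ → ℝ) (τ : ℝ), (∀ n, 0 < v n) → (∀ t : ℝ, τ < t → Summable (fun n : ℕ => (v n) ^ (-t))) →
      Starshaped 0 (fun n x => v n * x) ∧ ExpLe 0 (fun n x => v n * x) τ) ∧
    (∀ v : ℕ → ℝ, (∀ n, 1 ≤ v n) → (∀ t : ℝ, 0 < t → Summable fun n : ℕ => Real.exp (-(t * v n))) →
      Starshaped 1 (fun n x => x ^ (v n)) ∧ ExpLe 1 (fun n x => x ^ (v n)) 0) ∧
    (∀ (a : ℝ) (g : ℝ → ℝ), 0 ≤ a → (∀ x y : ℝ, a < x → x ≤ y → g x / x ≤ g y / y) → (∀ x : ℝ, a < x → x < g x) →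
      Starshaped a (fun n x => g^[n] x) ∧ ExpLe a (fun n x => g^[n] x) 0) := by
  refine ⟨fun k hk => ?_, Pool.Agent.R482.ST.ex_mul, Pool.Agent.R482.ST.ex_pow, Pool.Agent.R482.ST.ex_orbit⟩
  choose C hC K hK hcount using fun d => Pool.Agent.V7H35.LogCount.box_count k d hk
  have hk1 : (1 : ℝ) ≤ k := by exact_mod_cast hk
  have hC0 : ∀ d, (0 : ℝ) < (C d : ℝ) := fun d => by exact_mod_cast (by have := hC d; omega : 0 < C d)
  have hC2 : ∀ d, 1 / (C d : ℝ) ≤ 1 / 2 := fun d => by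
    have : (2 : ℝ) ≤ (C d : ℝ) := by exact_mod_cast hC d
    exact one_div_le_one_div_of_le (by norm_num) this
  have hmain : ∀ (d : ℕ) (a : ℝ) (f : ℕ → ℝ → ℝ) (τ θ : ℝ), Starshaped a f → 0 ≤ τ → ExpLe a f τ → θ < 1 →
      ∃ E : Set (Fin k → ℝ), dimH E ≤ ENNReal.ofReal (((k : ℝ) - 1 / C d + τ) / (1 - θ)) ∧
        ∀ u : Fin k → ℝ, a < ‖u‖ → u ∉ E → ∀ c : ℝ, ∃ j₀ : ℕ, ∀ j : ℕ, j₀ ≤ j → ∀ n : Fin k → ℕ, (∀ i, 1 ≤ n i) →
          Near (f j) (c * (f j ‖u‖) ^ θ) u n → HasMeasure d (C d) n := by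
    intro d a f τ θ hf hτ hE hθ
    obtain ⟨E, h1, h2⟩ := Pool.Agent.R482.ST.vec_windows_nat (ι := Fin k) (fun z _ => z ∈ Exc k d (C d))
      (fun z X Y _ h => h) (s := (k : ℝ) - 1 / C d) (by have := hC2 d; linarith)
      ⟨K d, fun T hT => Pool.Agent.V7H35.LogCount.exc_count (hcount d) T hT⟩ f a τ θ hf hτ hE hθ
    refine ⟨E, h1, fun u hu huE c => ?_⟩
    obtain ⟨j₀, hj⟩ := h2 u hu huE c
    refine ⟨j₀, fun j hj1 n hn hnear => ?_⟩
    by_contra hcon
    refine hj j hj1 (fun i => (n i : ℤ)) (fun i => ?_) ⟨fun i => ?_, ?_⟩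
    · simpa using hnear i
    · have := hn i
      show (0 : ℤ) < (n i : ℤ)
      omega
    · simpa using hcon
  refine ⟨C, hC, hmain, fun a f hf hE => ?_⟩
  have hpair : ∀ (d : ℕ) (θ : ℚ), ∀ᵐ u : Fin k → ℝ, a < ‖u‖ → 0 ≤ θ → (θ : ℝ) < 1 / (k * C d) → ∀ c : ℝ,
      ∃ j₀ : ℕ, ∀ j : ℕ, j₀ ≤ j → ∀ n : Fin k → ℕ, (∀ i, 1 ≤ n i) →
        Near (f j) (c * (f j ‖u‖) ^ (θ : ℝ)) u n → HasMeasure d (C d) n := by
    intro d θ
    by_cases hθ : 0 ≤ θ ∧ (θ : ℝ) < 1 / (k * C d)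
    · obtain ⟨hθ0, hθ1⟩ := hθ
      have hθ0' : (0 : ℝ) ≤ (θ : ℝ) := by exact_mod_cast hθ0
      have hkC : (k : ℝ) * θ < 1 / C d := by
        have h1 : (k : ℝ) * θ < k * (1 / (k * C d)) := mul_lt_mul_of_pos_left hθ1 (by linarith)
        have h2 : (k : ℝ) * (1 / (k * C d)) = 1 / C d := by
          have := hC0 d
          field_simp
        linarith
      have hθ2 : (θ : ℝ) < 1 := by
        have h1 := hC2 d
        nlinarith
      obtain ⟨E, hE1, hE2⟩ := hmain d a f 0 θ hf le_rfl hE hθ2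
      have hzero : volume E = 0 := by
        refine measure_zero_of_dimH_lt (d := (k : NNReal)) ?_ ?_
        · have h := hausdorffMeasure_pi_real (ι := Fin k)
          rw [Fintype.card_fin] at h
          have h' : ((k : NNReal) : ℝ) = (k : ℝ) := by push_cast; rfl
          rw [h', h]
        · refine lt_of_le_of_lt hE1 ?_
          have h2 : ((k : NNReal) : ENNReal) = ENNReal.ofReal (k : ℝ) := by
            rw [ENNReal.ofReal_natCast]
            rfl
          rw [h2]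
          refine (ENNReal.ofReal_lt_ofReal_iff (by linarith)).2 ?_
          rw [div_lt_iff₀ (by linarith)]
          nlinarith
      have hae : ∀ᵐ u : Fin k → ℝ, u ∉ E := by
        rw [ae_iff]
        simpa using hzero
      filter_upwards [hae] with u hu hau _ _
      exact hE2 u hau hu
    · exact Filter.Eventually.of_forall fun u _ h1 h2 => absurd ⟨h1, h2⟩ hθ
  have hall : ∀ᵐ u : Fin k → ℝ, ∀ (d : ℕ) (θ : ℚ), a < ‖u‖ → 0 ≤ θ → (θ : ℝ) < 1 / (k * C d) → ∀ c : ℝ,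
      ∃ j₀ : ℕ, ∀ j : ℕ, j₀ ≤ j → ∀ n : Fin k → ℕ, (∀ i, 1 ≤ n i) →
        Near (f j) (c * (f j ‖u‖) ^ (θ : ℝ)) u n → HasMeasure d (C d) n := by
    rw [ae_all_iff]
    intro d
    rw [ae_all_iff]
    exact hpair d
  filter_upwards [hall] with u hu hau d θ h0 h1 c
  exact hu d θ hau h0 h1 c

end Pool.Agent.Results.MP_3cf473_nt.StarshapedTuplesH35
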