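import Pool.Agent.V7H10.SL
import Pool.Agent.N760.IT.E
import Pool.Agent.V7H35.LogCount

/-!
# Measures of algebraic independence of logarithms near the orbits of Euler's function

The conjecture asks for a lower bound for the values of integer polynomials at the logarithms of positive integers
`n_0, …, n_r`. Here `n_0` is ANY integer of `[N ^ (1 - κ), A N]` near `G(f(φ_k(m)))`, `k ≤ K`, where `φ_k` is the `k`-fold
iterate of Euler's function, `f` is multiplicative (the identity, Euler's function, the sum of the divisors, …) and `G` is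
increasing of linear growth, for almost all `m ≤ N`; the other `n_l` are arbitrary outside a set with a power saving. For
`r = 0` this is a transcendence measure for the logarithms of the integers near `G(f(φ_k(m)))`, for almost all `m`.

The proof uses the number of the exceptional tuples from the start file `DirectionsNearAPoint` of this problem, their slices
(`Pool.Agent.V7H10.SL`) and the tool `Pool.Agent.N760.IT` (helper760).
-/

set_option autoImplicit false

namespace Pool.Agent.Results.MP_3cf473_nt.TotientOrbitTuplesH35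

open Finset
open Pool.Agent.N733.TG (LM Expanding)
open Pool.Agent.N760.IT (orb orbit_unif)
open Pool.Agent.V7H10.SL (Slice slice)
open DirectionsNearAPoint (HasMeasure)

/-- **Theorem.** For all `r` and `d` there are `C ≥ 2` and `0 < κ < 1` such that for all `f` with `LM`, all `G` with steps at
least a positive constant and of linear growth, all `A`, `K` and `η > 0`, for all large `N` there is a set `X` of at most
`N ^ (r - κ)` vectors such that for all `n' ∈ [1, A N] ^ r` outside `X`, for all but `η N` of the `m ≤ N`, for all `k ≤ K` and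
ALL `n` with `N ^ (1 - κ) ≤ n ≤ A N` and `|n - G(f(φ_k m))| ≤ f(φ_k m) ^ κ` the tuple `(n, n'_1, …, n'_r)` has the conjectured
measure of algebraic independence for its logarithms (`HasMeasure`), for the polynomials of degree at most `d`. -/
theorem result (r d : ℕ) :
    ∃ C : ℕ, 2 ≤ C ∧ ∃ κ : ℝ, 0 < κ ∧ κ < 1 ∧
      ∀ f : ℕ → ℕ, LM f → ∀ G : ℕ → ℝ, Expanding G 1 → ∀ (A K : ℕ) (η : ℝ), 0 < η → ∃ N₀ : ℕ, ∀ N : ℕ, N₀ ≤ N →
        ∃ X : Finset (Fin r → ℕ), (X.card : ℝ) ≤ (N : ℝ) ^ ((r : ℝ) - κ) ∧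
          ∀ n' : Fin r → ℕ, (∀ i, 1 ≤ n' i ∧ n' i ≤ A * N) → n' ∉ X →
            ({m : ℕ | 1 ≤ m ∧ m ≤ N ∧ ¬ ∀ k ≤ K, ∀ n : ℕ, (N : ℝ) ^ (1 - κ) ≤ n → n ≤ A * N →
              |(n : ℝ) - G (orb f k m)| ≤ (orb f k m : ℝ) ^ κ →
                HasMeasure d C (Fin.cons n n' : Fin (r + 1) → ℕ)}.ncard : ℝ) ≤ η * N := by
  classical
  obtain ⟨C, hC, L, hL, hcount⟩ := Pool.Agent.V7H35.LogCount.box_count (r + 1) d (Nat.succ_pos r)
  have hC2 : (2 : ℝ) ≤ (C : ℝ) := by exact_mod_cast hC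
  obtain ⟨c₀, hc⟩ : ∃ c₀ : ℝ, c₀ = 1 / (C : ℝ) := ⟨_, rfl⟩
  have hc0 : 0 < c₀ := by rw [hc]; positivity
  have hc1 : c₀ ≤ 1 := by
    rw [hc, div_le_one (by linarith)]
    linarith
  refine ⟨C, hC, c₀ / 8, by positivity, by linarith, fun f hf G hG A K η hη => ?_⟩
  obtain ⟨Bad, hBad⟩ : ∃ Bad : (Fin (r + 1) → ℕ) → Prop, Bad = fun w => ¬ HasMeasure d C w := ⟨_, rfl⟩
  obtain ⟨N₁, hN₁⟩ := slice A r hc0 hc1 (L * ((A : ℝ) + 1) ^ (r + 1))
  obtain ⟨N₂, hN₂⟩ := orbit_unif (T := ℕ) hf hG (s := 1 - c₀ / 4) (κ := c₀ / 8) (by linarith) (by positivity)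
    (by linarith) 1 K η hη
  refine ⟨max (max N₁ N₂) 2, fun N hN => ?_⟩
  have hN2 : 2 ≤ N := (le_max_right _ _).trans hN
  have hN1' : (1 : ℝ) ≤ N := by exact_mod_cast (by omega : 1 ≤ N)
  have hN0 : (0 : ℝ) < N := by linarith
  obtain ⟨X, hX, h⟩ := hN₁ N (((le_max_left _ _).trans (le_max_left _ _)).trans hN) Bad (by
    have hT : 1 ≤ (A + 1) * N := Nat.mul_pos (Nat.succ_pos _) (by omega)
    obtain ⟨hfin, h1⟩ := hcount ((A + 1) * N) hT
    have h2 : (((Fintype.piFinset fun _ : Fin (r + 1) => Icc 1 (A * N)).filter Bad :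
        Finset (Fin (r + 1) → ℕ)) : Set (Fin (r + 1) → ℕ)) ⊆
        {n : Fin (r + 1) → ℕ | (∀ i, 1 ≤ n i ∧ n i ≤ (A + 1) * N) ∧ ¬ HasMeasure d C n} := by
      intro w hw
      rw [mem_coe, mem_filter, Fintype.mem_piFinset, hBad] at hw
      refine ⟨fun l => ⟨(mem_Icc.1 (hw.1 l)).1,
        (mem_Icc.1 (hw.1 l)).2.trans (Nat.mul_le_mul_right _ (Nat.le_succ _))⟩, hw.2⟩
    have h3 := Set.ncard_le_ncard h2 hfin
    rw [Set.ncard_coe_finset] at h3
    refine (Nat.cast_le.2 h3).trans (h1.trans ?_)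
    have hle : (((r + 1 : ℕ) : ℝ) - 1 / (C : ℝ)) ≤ ((r + 1 : ℕ) : ℝ) := by
      rw [← hc]
      linarith
    calc L * (((A + 1) * N : ℕ) : ℝ) ^ (((r + 1 : ℕ) : ℝ) - 1 / (C : ℝ))
        = L * (((A : ℝ) + 1) ^ (((r + 1 : ℕ) : ℝ) - 1 / (C : ℝ)) *
            (N : ℝ) ^ (((r + 1 : ℕ) : ℝ) - 1 / (C : ℝ))) := by
          push_cast
          rw [Real.mul_rpow (by positivity) hN0.le]
      _ ≤ L * (((A : ℝ) + 1) ^ (r + 1) * (N : ℝ) ^ (((r + 1 : ℕ) : ℝ) - 1 / (C : ℝ))) := by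
          apply mul_le_mul_of_nonneg_left _ hL
          apply mul_le_mul_of_nonneg_right _ (by positivity)
          rw [← Real.rpow_natCast]
          exact Real.rpow_le_rpow_of_exponent_le (by linarith [(Nat.cast_nonneg A : (0 : ℝ) ≤ A)]) hle
      _ = _ := by rw [hc]; ring)
  refine ⟨X, hX, fun n' hn' hnX => ?_⟩
  have h1 := hN₂ (Slice A (c₀ / 8) Bad N n') (fun t : ℕ => (t : ℝ))
    (h n' hn' hnX) N (((le_max_right _ _).trans (le_max_left _ _)).trans hN)
  refine le_trans ?_ h1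
  apply Nat.cast_le.2
  apply Set.ncard_le_ncard
  · rintro m ⟨h2, h3, h4⟩
    refine ⟨h2, h3, ?_⟩
    rw [not_forall] at h4
    obtain ⟨k, h4⟩ := h4
    rw [Classical.not_imp, not_forall] at h4
    obtain ⟨hk, t, h4⟩ := h4
    rw [Classical.not_imp, Classical.not_imp, Classical.not_imp] at h4
    obtain ⟨ht1, ht2, ht3, ht4⟩ := h4
    refine ⟨k, hk, t, ⟨ht1, ht2, ?_⟩, ht3⟩
    rw [hBad]
    exact ht4
  · apply (Set.finite_Icc 1 N).subset
    rintro m ⟨h2, h3, _⟩
    exact ⟨h2, h3⟩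

end Pool.Agent.Results.MP_3cf473_nt.TotientOrbitTuplesH35
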